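import Pool.Agent.FRS.F5

/-!
# MP_6fb7ad_al: one-relator open subgroups that contain the torsion of a quotient

Let `U` be reached from the pro-`p` group `G` by a finite chain of subgroups, each step `V ≥ W`
being of one of three kinds:

* `FStep`: `W` is open of index `p` in `V` and no `v ∈ V` outside of `W` has its `p`-th power in the
  Frattini subgroup of `W`;
* `KStep`: `W` is open in `V` and contains a closed normal subgroup `K` of `V` such that every
  `v ∈ V` with `v ^ p ∈ K` lies in `W`, and the algebra `𝔽_p⟦W / K⟧` has no zero divisors or the
  restriction `H²(W, 𝔽_p) → H²(K, 𝔽_p)` is injective;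
* `ResStep`: `W` is open in `V` and every element of `V` outside of `W` is missed by a closed normal
  subgroup `K` of `V` such that `V / K` has a finite normal series with infinite procyclic factors.

If `U` is a pro-`p` group with a single defining relation, then so is `G`.
-/

set_option autoImplicit false

namespace Pool.Agent.Results.MP_6fb7ad_al.TorsionInside

open Pool.Agent.MP_6fb7ad_al Pool.Agent.FRS.St Pool.Agent.ORD.St

theorem result (p : ℕ) [Fact p.Prime] (G : Type) [Group G] [TopologicalSpace G]
    [IsTopologicalGroup G] (hG : IsProP p G) (U : Subgroup G)
    (hU : Relation.ReflTransGen (fun V W => FStep p V W ∨ KStep p V W ∨ ResStep V W) ⊤ U)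
    (h : OneRelator p U) : OneRelator p G :=
  Pool.Agent.FRS.mainK hG U hU h

end Pool.Agent.Results.MP_6fb7ad_al.TorsionInside
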